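import Pool.Agent.R443.CL3

/-!
MP_552068_nt: if `p` is a prime with `p ≡ 3, 5, 6` modulo `7` then `p^2` divides
`sum_(k<p) (-1)^k a(k)`, where `a(n) = sum_k (-16)^k C(n,k)^2 C(n-k,k)^2`.
-/

set_option autoImplicit false

namespace Pool.Agent.Results.MP_552068_nt.SunInert

open Finset

/-- `a(n) = sum_(0 ≤ k ≤ n) (-16)^k C(n,k)^2 C(n-k,k)^2`. -/
def a (n : ℕ) : ℤ :=
  ∑ k ∈ range (n + 1), (-16) ^ k * ((Nat.choose n k : ℕ) : ℤ) ^ 2 *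
    ((Nat.choose (n - k) k : ℕ) : ℤ) ^ 2

/-- `S(p) = sum_(0 ≤ k ≤ p-1) (-1)^k a(k)`. -/
def S (p : ℕ) : ℤ := ∑ k ∈ range p, (-1) ^ k * a k

theorem result : ∀ p : ℕ, p.Prime → (p % 7 = 3 ∨ p % 7 = 5 ∨ p % 7 = 6) →
    (p : ℤ) ^ 2 ∣ S p := by
  intro p hp h
  have hj : jacobiSym (p : ℤ) 7 = -1 := by
    rw [jacobiSym.mod_left]
    rcases h with h | h | h
    · rw [show (p : ℤ) % ((7 : ℕ) : ℤ) = 3 by omega]
      norm_num
    · rw [show (p : ℤ) % ((7 : ℕ) : ℤ) = 5 by omega]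
      norm_num
    · rw [show (p : ℤ) % ((7 : ℕ) : ℤ) = 6 by omega]
      norm_num
  exact Pool.Agent.R443.CL.alt_main hp hj

end Pool.Agent.Results.MP_552068_nt.SunInert
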